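import Pool.Agent.Helper47.SR.Goals

/-! # SR-M2A: pairs and 3-sets -/

set_option autoImplicit false

open Finset

namespace Pool.Agent.Helper74.SR

open Pool.Agent.Helper47.SR

open Classical in
/-- the involutions of `G` -/
noncomputable def ivs {n : ℕ} (G : Grp n) : Finset (Equiv.Perm (Fin n)) :=
  univ.filter fun γ => γ ∈ G ∧ γ ≠ 1 ∧ γ * γ = 1

theorem nInv_eq {n : ℕ} (G : Grp n) : nInv G = #(ivs G) := by
  classical
  unfold nInv
  exact Nat.subtype_card _ (by intro γ; simp [ivs])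

theorem wt_pair {n : ℕ} {G : Grp n} (hG : Semireg G) {u v : Fin n} (h : u ≠ v) :
    wt G {u, v} = #((ivs G).filter fun γ => γ u = v) := by
  classical
  unfold wt ivs
  congr 1
  ext γ
  simp only [mem_filter, mem_univ, true_and]
  constructor
  · rintro ⟨h1, h2, h3⟩
    have hu : γ u ∈ ({u, v} : Finset (Fin n)) := by
      rw [← h3]
      exact Finset.mem_map_of_mem γ.toEmbedding (by simp)
    have hv : γ v ∈ ({u, v} : Finset (Fin n)) := by
      rw [← h3]
      exact Finset.mem_map_of_mem γ.toEmbedding (by simp)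
    have hu1 := hG γ h1 h2 u
    have hv1 := hG γ h1 h2 v
    have hu2 : γ u = v := by
      rcases Finset.mem_insert.1 hu with h | h
      · exact absurd h hu1
      · exact Finset.mem_singleton.1 h
    have hv2 : γ v = u := by
      rcases Finset.mem_insert.1 hv with h | h
      · exact h
      · exact absurd (Finset.mem_singleton.1 h) hv1
    refine ⟨⟨h1, h2, ?_⟩, hu2⟩
    by_contra h4
    exact hG (γ * γ) (mul_mem h1 h1) h4 u (by rw [Equiv.Perm.mul_apply, hu2, hv2])
  · rintro ⟨⟨h1, h2, h3⟩, h4⟩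
    refine ⟨h1, h2, ?_⟩
    have h5 : γ v = u := by
      rw [← h4, ← Equiv.Perm.mul_apply, h3]; rfl
    ext z
    rw [Finset.mem_map]
    constructor
    · rintro ⟨w, hw, rfl⟩
      rcases Finset.mem_insert.1 hw with h | h
      · subst h
        simp [h4]
      · rw [Finset.mem_singleton] at h
        subst h
        simp [h5]
    · intro hz
      rcases Finset.mem_insert.1 hz with h | h
      · exact ⟨v, by simp, by simpa [h] using h5⟩
      · rw [Finset.mem_singleton] at h
        exact ⟨u, by simp, by simpa [h] using h4⟩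

theorem wt_pair_le {n : ℕ} {G : Grp n} (hG : Semireg G) {y : Finset (Fin n)} (h : #y = 2) :
    wt G y ≤ 1 := by
  classical
  obtain ⟨u, v, huv, rfl⟩ := Finset.card_eq_two.1 h
  rw [wt_pair hG huv, Finset.card_le_one]
  intro γ hγ δ hδ
  rw [mem_filter] at hγ hδ
  have h1 : γ ∈ G := by have := hγ.1; unfold ivs at this; rw [mem_filter] at this; exact this.2.1
  have h2 : δ ∈ G := by have := hδ.1; unfold ivs at this; rw [mem_filter] at this; exact this.2.1
  by_contra h3
  refine hG (γ⁻¹ * δ) (mul_mem (inv_mem h1) h2) ?_ u ?_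
  · intro h4
    exact h3 (inv_mul_eq_one.1 h4)
  · rw [Equiv.Perm.mul_apply, hδ.2, ← hγ.2]
    simp

theorem sum_wt {n : ℕ} {G : Grp n} (hG : Semireg G) (u : Fin n) :
    ∑ v ∈ univ.erase u, wt G {u, v} = nInv G := by
  classical
  rw [nInv_eq, Finset.card_eq_sum_card_fiberwise (f := fun γ : Equiv.Perm (Fin n) => γ u)
    (t := univ.erase u)]
  · apply Finset.sum_congr rfl
    intro v hv
    exact wt_pair hG (Finset.ne_of_mem_erase hv).symm
  · intro γ hγ
    have h1 : γ ∈ ivs G := hγ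
    unfold ivs at h1
    rw [mem_filter] at h1
    exact Finset.mem_coe.2 (Finset.mem_erase.2 ⟨hG γ h1.2.1 h1.2.2.1 u, mem_univ _⟩)

/-- the sum of the weights of the pairs in a 3-set -/
noncomputable def tt {n : ℕ} (G : Grp n) (x : Finset (Fin n)) : ℕ := ∑ i ∈ x, wt G (x.erase i)

theorem sum_tt {n : ℕ} {G : Grp n} (hG : Semireg G) {y : Finset (Fin n)} (h : #y = 2) :
    ∑ j ∈ yᶜ, tt G (insert j y) + 2 * wt G y = (n - 2) * wt G y + 2 * nInv G := by
  classical
  obtain ⟨u, v, huv, rfl⟩ := Finset.card_eq_two.1 h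
  have h1 : ∀ j ∈ ({u, v} : Finset (Fin n))ᶜ, tt G (insert j {u, v}) =
      wt G {u, v} + (wt G {v, j} + wt G {u, j}) := by
    intro j hj
    rw [Finset.mem_compl] at hj
    have hju : j ≠ u := fun h => hj (by simp [h])
    have hjv : j ≠ v := fun h => hj (by simp [h])
    unfold tt
    rw [Finset.sum_insert hj, Finset.erase_insert hj, Finset.sum_pair huv]
    congr 3
    · ext z
      simp only [mem_erase, mem_insert, mem_singleton]
      constructor
      · rintro ⟨a, b⟩
        tauto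
      · rintro (a | a)
        · subst a; exact ⟨huv.symm, by tauto⟩
        · subst a; exact ⟨hju, by tauto⟩
    · ext z
      simp only [mem_erase, mem_insert, mem_singleton]
      constructor
      · rintro ⟨a, b⟩
        tauto
      · rintro (a | a)
        · subst a; exact ⟨huv, by tauto⟩
        · subst a; exact ⟨hjv, by tauto⟩
  rw [Finset.sum_congr rfl h1, Finset.sum_add_distrib, Finset.sum_add_distrib, Finset.sum_const,
    Finset.card_compl, h, Fintype.card_fin, smul_eq_mul]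
  have h2 : ∑ j ∈ ({u, v} : Finset (Fin n))ᶜ, wt G {v, j} + wt G {u, v} = nInv G := by
    rw [← sum_wt hG v, ← Finset.add_sum_erase (univ.erase v) (fun j => wt G {v, j}) (a := u)
      (Finset.mem_erase.2 ⟨huv, mem_univ _⟩), add_comm, Finset.pair_comm u v]
    congr 1
    apply Finset.sum_congr _ fun _ _ => rfl
    ext z
    simp only [mem_compl, mem_insert, mem_singleton, mem_erase, mem_univ, and_true]
    tauto
  have h3 : ∑ j ∈ ({u, v} : Finset (Fin n))ᶜ, wt G {u, j} + wt G {u, v} = nInv G := by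
    rw [← sum_wt hG u, ← Finset.add_sum_erase (univ.erase u) (fun j => wt G {u, j}) (a := v)
      (Finset.mem_erase.2 ⟨huv.symm, mem_univ _⟩), add_comm]
    congr 1
    apply Finset.sum_congr _ fun _ _ => rfl
    ext z
    simp only [mem_compl, mem_insert, mem_singleton, mem_erase, mem_univ, and_true]
    tauto
  omega

/-- the flow -/
noncomputable def fz {n : ℕ} (G : Grp n) (y x : Finset (Fin n)) : ℤ :=
  2 * ((n : ℤ) - 1 + nInv G) + ((n : ℤ) - 2) * (3 * wt G y - tt G x)

theorem fz1 {n : ℕ} (G : Grp n) {x : Finset (Fin n)} (hx : #x = 3) :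
    ∑ i ∈ x, fz G (x.erase i) x = 6 * ((n : ℤ) - 1 + nInv G) := by
  unfold fz
  rw [Finset.sum_add_distrib, ← Finset.mul_sum, ← Finset.mul_sum, Finset.sum_sub_distrib,
    ← Finset.mul_sum]
  simp only [Finset.sum_const, hx, nsmul_eq_mul]
  have : ((tt G x : ℕ) : ℤ) = ∑ i ∈ x, (wt G (x.erase i) : ℤ) := by
    unfold tt
    push_cast
    rfl
  rw [← this]
  push_cast
  ring

theorem fz2 {n : ℕ} {G : Grp n} (hG : Semireg G) (hn : 3 ≤ n) {y : Finset (Fin n)} (hy : #y = 2) :
    ∑ j ∈ yᶜ, fz G y (insert j y) = 2 * (((n : ℤ) - 1) * (n - 2) * (1 + wt G y)) := by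
  unfold fz
  rw [Finset.sum_add_distrib, ← Finset.mul_sum, ← Finset.mul_sum, Finset.sum_sub_distrib]
  simp only [Finset.sum_const, Finset.card_compl, hy, nsmul_eq_mul, Fintype.card_fin]
  have h1 : ((n - 2 : ℕ) : ℤ) = (n : ℤ) - 2 := by
    rw [Nat.cast_sub (by omega)]; rfl
  have h2 : ∑ j ∈ yᶜ, (tt G (insert j y) : ℤ) =
      ((n : ℤ) - 2) * wt G y + 2 * nInv G - 2 * wt G y := by
    have := sum_tt hG hy
    have h3 : ((∑ j ∈ yᶜ, tt G (insert j y) + 2 * wt G y : ℕ) : ℤ) =
      (((n - 2) * wt G y + 2 * nInv G : ℕ) : ℤ) := by rw [this]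
    push_cast [h1] at h3
    linarith
  rw [h1, h2]
  ring

theorem fz3 {n : ℕ} {G : Grp n} (hG : Semireg G) (hn : 3 ≤ n) {x : Finset (Fin n)} (hx : #x = 3)
    {i : Fin n} (hi : i ∈ x) : 2 ≤ fz G (x.erase i) x := by
  have h1 : tt G x ≤ wt G (x.erase i) + 2 := by
    unfold tt
    rw [← Finset.add_sum_erase x (fun i => wt G (x.erase i)) hi]
    apply Nat.add_le_add_left
    calc ∑ j ∈ x.erase i, wt G (x.erase j) ≤ ∑ _j ∈ x.erase i, 1 := by
          apply Finset.sum_le_sum
          intro j hj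
          apply wt_pair_le hG
          rw [Finset.card_erase_of_mem (Finset.mem_of_mem_erase hj), hx]
      _ = 2 := by rw [Finset.sum_const, Finset.card_erase_of_mem hi, hx]; rfl
  have h2 : ((tt G x : ℕ) : ℤ) ≤ wt G (x.erase i) + 2 := by exact_mod_cast h1
  have h3 : (0 : ℤ) ≤ (n : ℤ) - 2 := by
    have : (3 : ℤ) ≤ n := by exact_mod_cast hn
    linarith
  have h4 : (0 : ℤ) ≤ (wt G (x.erase i) : ℤ) := Int.natCast_nonneg _
  have h5 : (0 : ℤ) ≤ (nInv G : ℤ) := Int.natCast_nonneg _
  unfold fz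
  have h6 : ((n : ℤ) - 2) * (-2) ≤ ((n : ℤ) - 2) * (3 * wt G (x.erase i) - tt G x) :=
    mul_le_mul_of_nonneg_left (by linarith) h3
  linarith

theorem swap {n : ℕ} (F : Finset (Finset (Fin n))) (hF : F ⊆ lev n 2)
    (f : Finset (Fin n) → Finset (Fin n) → ℤ) :
    ∑ y ∈ F, ∑ j ∈ yᶜ, f y (insert j y) =
      ∑ x ∈ lev n (2 + 1), ∑ i ∈ x.filter (fun i => x.erase i ∈ F), f (x.erase i) x := by
  classical
  rw [Finset.sum_sigma', Finset.sum_sigma']
  refine Finset.sum_bij' (fun p _ => ⟨insert p.2 p.1, p.2⟩) (fun p _ => ⟨p.1.erase p.2, p.2⟩)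
    ?_ ?_ ?_ ?_ ?_
  · rintro ⟨y, j⟩ hp
    rw [Finset.mem_sigma] at hp
    obtain ⟨h1, h2⟩ := hp
    have h2' : j ∉ y := Finset.mem_compl.1 h2
    rw [Finset.mem_sigma, Finset.mem_filter]
    refine ⟨?_, Finset.mem_insert_self _ _, ?_⟩
    · show insert j y ∈ lev n (2 + 1)
      rw [Finset.mem_powersetCard_univ, Finset.card_insert_of_notMem h2',
        (Finset.mem_powersetCard_univ.1 (hF h1))]
    · show (insert j y).erase j ∈ F
      rw [Finset.erase_insert h2']
      exact h1
  · rintro ⟨x, i⟩ hp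
    rw [Finset.mem_sigma, Finset.mem_filter] at hp
    obtain ⟨h1, h2, h3⟩ := hp
    rw [Finset.mem_sigma]
    exact ⟨h3, Finset.mem_compl.2 (Finset.notMem_erase _ _)⟩
  · rintro ⟨y, j⟩ hp
    rw [Finset.mem_sigma] at hp
    have h2' : j ∉ y := Finset.mem_compl.1 hp.2
    simp only
    rw [Finset.erase_insert h2']
  · rintro ⟨x, i⟩ hp
    rw [Finset.mem_sigma, Finset.mem_filter] at hp
    simp only
    rw [Finset.insert_erase hp.2.1]
  · rintro ⟨y, j⟩ hp
    rw [Finset.mem_sigma] at hp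
    have h2' : j ∉ y := Finset.mem_compl.1 hp.2
    simp only
    rw [Finset.erase_insert h2']

theorem goal_M2A : Goal_M2A := by
  classical
  intro n G hG hn F hF
  set D : ℤ := (n : ℤ) - 1 + nInv G with hD
  have hn' : (3 : ℤ) ≤ n := by exact_mod_cast hn
  have e1 : 2 * (((n : ℤ) - 1) * (n - 2) * (W G F : ℤ)) =
      ∑ x ∈ lev n (2 + 1), ∑ i ∈ x.filter (fun i => x.erase i ∈ F), fz G (x.erase i) x := by
    rw [← swap F hF (fz G)]
    have : ∀ y ∈ F, ∑ j ∈ yᶜ, fz G y (insert j y) =
        2 * (((n : ℤ) - 1) * (n - 2) * (1 + wt G y)) := by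
      intro y hy
      exact fz2 hG hn (Finset.mem_powersetCard_univ.1 (hF hy))
    rw [Finset.sum_congr rfl this]
    unfold W
    push_cast
    rw [Finset.mul_sum, Finset.mul_sum]
  have hcard : ∀ x ∈ lev n (2 + 1), #x = 3 := fun x hx => Finset.mem_powersetCard_univ.1 hx
  -- nonnegativity
  have hnn : ∀ x ∈ lev n (2 + 1), ∀ i ∈ x, 2 ≤ fz G (x.erase i) x := fun x hx i hi =>
    fz3 hG hn (hcard x hx) hi
  have hup : up 2 F ⊆ lev n (2 + 1) := Finset.filter_subset _ _
  have hdn : dn 2 F ⊆ up 2 F := by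
    intro x hx
    unfold dn at hx
    unfold up
    rw [Finset.mem_filter] at hx ⊢
    refine ⟨hx.1, ?_⟩
    have : x.Nonempty := by
      rw [← Finset.card_pos, hcard x hx.1]
      norm_num
    obtain ⟨a, ha⟩ := this
    exact ⟨a, ha, hx.2 a ha⟩
  have e2 : ∑ x ∈ lev n (2 + 1), ∑ i ∈ x.filter (fun i => x.erase i ∈ F), fz G (x.erase i) x =
      ∑ x ∈ up 2 F, ∑ i ∈ x.filter (fun i => x.erase i ∈ F), fz G (x.erase i) x := by
    symm
    apply Finset.sum_subset hup
    intro x hx hx'
    have : x.filter (fun i => x.erase i ∈ F) = ∅ := by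
      rw [Finset.filter_eq_empty_iff]
      intro i hi hh
      apply hx'
      unfold up
      rw [Finset.mem_filter]
      exact ⟨hx, i, hi, hh⟩
    rw [this, Finset.sum_empty]
  constructor
  · have h1 : 2 * (((n : ℤ) - 1) * (n - 2) * (W G F : ℤ)) ≤ 6 * D * #(up 2 F) := by
      rw [e1, e2]
      calc ∑ x ∈ up 2 F, ∑ i ∈ x.filter (fun i => x.erase i ∈ F), fz G (x.erase i) x
          ≤ ∑ x ∈ up 2 F, 6 * D := by
            apply Finset.sum_le_sum
            intro x hx
            rw [← fz1 G (hcard x (hup hx))]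
            apply Finset.sum_le_sum_of_subset_of_nonneg (Finset.filter_subset _ _)
            intro i hi _
            have := hnn x (hup hx) i hi
            linarith
        _ = 6 * D * #(up 2 F) := by rw [Finset.sum_const, nsmul_eq_mul]; ring
    have h2 : (((n - 1) * (n - 2) * W G F : ℕ) : ℤ) ≤
        ((3 * (n - 1 + nInv G) * #(up 2 F) : ℕ) : ℤ) := by
      push_cast [Nat.cast_sub (show 1 ≤ n by omega), Nat.cast_sub (show 2 ≤ n by omega)]
      rw [hD] at h1
      linarith
    exact_mod_cast h2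
  · have h1 : 6 * D * #(dn 2 F) + 2 * ((#(up 2 F) : ℤ) - #(dn 2 F)) ≤
        2 * (((n : ℤ) - 1) * (n - 2) * (W G F : ℤ)) := by
      rw [e1, e2, ← Finset.sum_sdiff hdn]
      have h3 : (6 : ℤ) * D * #(dn 2 F) =
          ∑ x ∈ dn 2 F, ∑ i ∈ x.filter (fun i => x.erase i ∈ F), fz G (x.erase i) x := by
        have : ∀ x ∈ dn 2 F, ∑ i ∈ x.filter (fun i => x.erase i ∈ F), fz G (x.erase i) x
            = 6 * D := by
          intro x hx
          have hx' := hx
          unfold dn at hx'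
          rw [Finset.mem_filter] at hx'
          rw [Finset.filter_true_of_mem hx'.2, fz1 G (hcard x hx'.1)]
        rw [Finset.sum_congr rfl this, Finset.sum_const, nsmul_eq_mul]
        ring
      have h4 : 2 * ((#(up 2 F) : ℤ) - #(dn 2 F)) ≤
          ∑ x ∈ up 2 F \ dn 2 F, ∑ i ∈ x.filter (fun i => x.erase i ∈ F), fz G (x.erase i) x := by
        have h5 : ∑ _x ∈ up 2 F \ dn 2 F, (2 : ℤ) = 2 * ((#(up 2 F) : ℤ) - #(dn 2 F)) := by
          rw [Finset.sum_const, nsmul_eq_mul, Finset.card_sdiff_of_subset hdn,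
            Nat.cast_sub (Finset.card_le_card hdn)]
          ring
        rw [← h5]
        apply Finset.sum_le_sum
        intro x hx
        rw [Finset.mem_sdiff] at hx
        have hx' := hx.1
        unfold up at hx'
        rw [Finset.mem_filter] at hx'
        obtain ⟨hx1, a, ha, ha'⟩ := hx'
        have h6 : a ∈ x.filter (fun i => x.erase i ∈ F) := Finset.mem_filter.2 ⟨ha, ha'⟩
        refine (hnn x hx1 a ha).trans ?_
        apply Finset.single_le_sum (f := fun i => fz G (x.erase i) x) _ h6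
        intro i hi
        have := hnn x hx1 i (Finset.mem_filter.1 hi).1
        linarith
      rw [h3]
      linarith
    have h2 : ((3 * (n - 1 + nInv G) * #(dn 2 F) + #(up 2 F) : ℕ) : ℤ) ≤
        (((n - 1) * (n - 2) * W G F + #(dn 2 F) : ℕ) : ℤ) := by
      push_cast [Nat.cast_sub (show 1 ≤ n by omega), Nat.cast_sub (show 2 ≤ n by omega)]
      rw [hD] at h1
      linarith
    exact_mod_cast h2

end Pool.Agent.Helper74.SR
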